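import Pool.Agent.MP_32430d_co.Four

/-! Every four-point set in the plane is a Winner. -/

namespace Pool.Agent.Results.MP_32430d_co.FourPoints

open Pool.Agent.MP_32430d_co

theorem result : ∀ g : Fin 4 → EuclideanSpace ℝ (Fin 2), Function.Injective g →
    ∃ σ : List (EuclideanSpace ℝ (Fin 2)) → EuclideanSpace ℝ (Fin 2),
      ∀ x : ℕ → EuclideanSpace ℝ (Fin 2),
        (∀ k : ℕ, x (2 * k) = σ (List.ofFn (fun i : Fin (2 * k) => x i))) →
        (∀ k : ℕ, ∀ j : ℕ, j < 2 * k + 1 → x (2 * k + 1) ≠ x j) →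
        (∀ k : ℕ, ∀ j : ℕ, j < 2 * k → x (2 * k) ≠ x j) ∧
        ∃ n : ℕ, n < 8 ∧
          (∃ e : Fin 4 → EuclideanSpace ℝ (Fin 2),
            (∀ a b : Fin 4, dist (e a) (e b) = dist (g a) (g b)) ∧
            ∀ a : Fin 4, ∃ i : ℕ, i ≤ n ∧ e a = x (2 * i)) ∧
          ¬ (∃ e : Fin 4 → EuclideanSpace ℝ (Fin 2),
            (∀ a b : Fin 4, dist (e a) (e b) = dist (g a) (g b)) ∧
            ∀ a : Fin 4, ∃ i : ℕ, i < n ∧ e a = x (2 * i + 1)) :=
  fun g hg => Race.firstWins (Own := Four.Has g) (fun ⟨_, _, h⟩ => h 0) (Four.win_e hg)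

end Pool.Agent.Results.MP_32430d_co.FourPoints
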