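import Pool.Agent.MP_32430d_co.Cert7

/-! The first player is the first to own seven of the nine points of a copy of the `3 × 3` grid. -/

namespace Pool.Agent.Results.MP_32430d_co.SevenOfNine

open Pool.Agent.MP_32430d_co

theorem result : FirstWins {T | T.card = 7} 9 := root_ok fam7 c7

end Pool.Agent.Results.MP_32430d_co.SevenOfNine
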