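import Pool.Agent.MP_32430d_co.six.Main

/-! Five consecutive points of a circle with one point on the axis: not a Winner. -/

namespace Pool.Agent.Results.MP_32430d_co.SixNonWinner

open Pool.Agent.MP_32430d_co

theorem result : ∀ s : ℝ, LinearIndependent ℚ (fun j : Fin 3 => s ^ (j : ℕ)) →
    ∃ C : Set ℝ, C.Countable ∧ ∀ θ : ℝ, θ ∉ C → ∀ g : Fin 6 → EuclideanSpace ℝ (Fin 2),
      (∀ j : Fin 6, j ≠ 5 → g j 0 = Real.cos ((((j : ℕ) : ℝ) - 2) * θ) ∧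
        g j 1 = Real.sin ((((j : ℕ) : ℝ) - 2) * θ)) → g 5 0 = s → g 5 1 = 0 →
      Function.Injective g ∧
      ¬ ∃ σ : List (EuclideanSpace ℝ (Fin 2)) → EuclideanSpace ℝ (Fin 2),
        ∀ x : ℕ → EuclideanSpace ℝ (Fin 2),
          (∀ k : ℕ, x (2 * k) = σ (List.ofFn (fun i : Fin (2 * k) => x i))) →
          (∀ k : ℕ, ∀ j : ℕ, j < 2 * k + 1 → x (2 * k + 1) ≠ x j) →
          (∀ k : ℕ, ∀ j : ℕ, j < 2 * k → x (2 * k) ≠ x j) ∧
          ∃ n : ℕ,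
            (∃ e : Fin 6 → EuclideanSpace ℝ (Fin 2),
              (∀ a b : Fin 6, dist (e a) (e b) = dist (g a) (g b)) ∧
              ∀ a : Fin 6, ∃ i : ℕ, i ≤ n ∧ e a = x (2 * i)) ∧
            ¬ (∃ e : Fin 6 → EuclideanSpace ℝ (Fin 2),
              (∀ a b : Fin 6, dist (e a) (e b) = dist (g a) (g b)) ∧
              ∀ a : Fin 6, ∃ i : ℕ, i < n ∧ e a = x (2 * i + 1)) :=
  fun _ hs => (Six.params hs).imp fun _ h => ⟨h.1, fun θ hθ g a b c =>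
    (h.2 θ hθ g a b c).elim fun G hG => ⟨Six.inj G hG, Six.main G hG⟩⟩

end Pool.Agent.Results.MP_32430d_co.SixNonWinner
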