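import Pool.Agent.MP_32430d_co.Cert5
import Pool.Agent.MP_32430d_co.Cert6

/-! Five six-point and eighteen five-point subsets of the `3 × 3` grid are Winners. -/

namespace Pool.Agent.Results.MP_32430d_co.SubsetWinners

open Pool.Agent.MP_32430d_co

theorem result : ∀ T ∈ ([{(0, 0), (0, 1), (0, 2), (1, 0), (1, 1), (2, 0)},
      {(0, 0), (0, 1), (0, 2), (1, 0), (1, 1), (2, 1)},
      {(0, 0), (0, 1), (0, 2), (1, 0), (1, 1), (2, 2)},
      {(0, 0), (0, 1), (0, 2), (1, 1), (2, 0), (2, 1)},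
      {(0, 0), (0, 1), (1, 0), (1, 1), (1, 2), (2, 2)},
      {(0, 0), (0, 1), (0, 2), (1, 0), (1, 1)},
      {(0, 0), (0, 1), (0, 2), (1, 0), (1, 2)},
      {(0, 0), (0, 1), (0, 2), (1, 0), (2, 0)},
      {(0, 0), (0, 1), (0, 2), (1, 0), (2, 1)},
      {(0, 0), (0, 1), (0, 2), (1, 0), (2, 2)},
      {(0, 0), (0, 1), (0, 2), (1, 1), (2, 0)},
      {(0, 0), (0, 1), (0, 2), (1, 1), (2, 1)},
      {(0, 0), (0, 1), (0, 2), (2, 0), (2, 1)},
      {(0, 0), (0, 1), (0, 2), (2, 0), (2, 2)},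
      {(0, 0), (0, 1), (1, 0), (1, 1), (2, 2)},
      {(0, 0), (0, 1), (1, 0), (1, 2), (2, 1)},
      {(0, 0), (0, 1), (1, 0), (1, 2), (2, 2)},
      {(0, 0), (0, 1), (1, 1), (1, 2), (2, 0)},
      {(0, 0), (0, 1), (1, 1), (1, 2), (2, 1)},
      {(0, 0), (0, 1), (1, 1), (1, 2), (2, 2)},
      {(0, 0), (0, 1), (1, 1), (2, 0), (2, 2)},
      {(0, 0), (0, 1), (1, 1), (2, 1), (2, 2)},
      {(0, 0), (0, 1), (1, 2), (2, 0), (2, 1)}] :
      List (Finset (Fin 3 × Fin 3))), FirstWins {T} 10 := by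
  simp only [List.forall_mem_cons, List.not_mem_nil, false_imp_iff, implies_true, and_true]
  exact ⟨root_ok (fam1 (by decide)) c6_1,
    root_ok (fam1 (by decide)) c6_2,
    root_ok (fam1 (by decide)) c6_3,
    root_ok (fam1 (by decide)) c6_8,
    root_ok (fam1 (by decide)) c6_12,
    root_ok (fam1 (by decide)) c5_0,
    root_ok (fam1 (by decide)) c5_1,
    root_ok (fam1 (by decide)) c5_2,
    root_ok (fam1 (by decide)) c5_3,
    root_ok (fam1 (by decide)) c5_4,
    root_ok (fam1 (by decide)) c5_5,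
    root_ok (fam1 (by decide)) c5_6,
    root_ok (fam1 (by decide)) c5_7,
    root_ok (fam1 (by decide)) c5_8,
    root_ok (fam1 (by decide)) c5_9,
    root_ok (fam1 (by decide)) c5_10,
    root_ok (fam1 (by decide)) c5_11,
    root_ok (fam1 (by decide)) c5_12,
    root_ok (fam1 (by decide)) c5_13,
    root_ok (fam1 (by decide)) c5_14,
    root_ok (fam1 (by decide)) c5_15,
    root_ok (fam1 (by decide)) c5_16,
    root_ok (fam1 (by decide)) c5_17⟩

end Pool.Agent.Results.MP_32430d_co.SubsetWinners
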